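import Pool.Agent.Helper7.CQ.Numer

/-!
# Project CQ, piece D3: descent of points
-/

namespace Pool.Agent.Helper50.CQ

open MvPolynomial Pool.Agent.Helper76.CY Pool.Agent.Helper76.CQ Pool.Agent.Helper7.CQ

theorem desc_points {K L E : Type} [Field K] [Field L] [Field E] [Algebra K L] [Algebra K E]
    [Algebra L E] [IsScalarTower K L E] (g : Matrix (Fin 10) (Fin 10) L)
    (P' : Ideal (MvPolynomial Idx L)) (h0 : ∀ f ∈ P', constantCoeff f = 0)
    (hg0 : dch g 0 ≠ 0) (y : Idx → E) (hy : ∀ G : MvPolynomial Idx L, aeval y G = 0 ↔ G ∈ P')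
    (hpts : ∀ f, f ∉ P' → ∃ u : Idx → L, eval u f ≠ 0 ∧ ∀ G ∈ P', eval u G = 0) :
    IsUnit (dch (g.map (algebraMap L E)) y) ∧
      (∀ f : MvPolynomial Idx K, aeval (chg (g.map (algebraMap L E)) y) f ≠ 0 →
        ∃ z : Idx → L, aeval z f ≠ 0 ∧ ∀ h : MvPolynomial Idx K,
          aeval (chg (g.map (algebraMap L E)) y) h = 0 → aeval z h = 0) ∧
      ∀ f : MvPolynomial Idx K, aeval (chg (g.map (algebraMap L E)) y) f = 0 →
        aeval (chg g 0) f = 0 := by
  have hgL : g.map (algebraMap L L) = g := by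
    ext i j
    rfl
  -- the polynomial of the determinant
  have hDE : aeval y (dch (g.map (C : L →+* MvPolynomial Idx L)) X) =
      dch (g.map (algebraMap L E)) y := aeval_dch g y
  have hDL : ∀ u : Idx → L, aeval u (dch (g.map (C : L →+* MvPolynomial Idx L)) X) = dch g u := by
    intro u
    rw [aeval_dch g u, hgL]
  have hev : ∀ (u : Idx → L) (f : MvPolynomial Idx L), aeval u f = eval u f := by
    intro u f
    rw [← coe_aeval_eq_eval]
    rfl
  have hcc : ∀ f : MvPolynomial Idx L, aeval (0 : Idx → L) f = constantCoeff f := by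
    intro f
    rw [aeval_zero]
    rfl
  set Δ : MvPolynomial Idx L := dch (g.map (C : L →+* MvPolynomial Idx L)) X with hΔ
  have hΔP : Δ ∉ P' := by
    intro h
    apply hg0
    rw [← hDL 0, hcc]
    exact h0 Δ h
  have hne : dch (g.map (algebraMap L E)) y ≠ 0 := by
    rw [← hDE]
    intro h
    exact hΔP ((hy Δ).1 h)
  have hu : IsUnit (dch (g.map (algebraMap L E)) y) := isUnit_iff_ne_zero.2 hne
  refine ⟨hu, ?_, ?_⟩
  · intro f hf
    obtain ⟨k, G, hG⟩ := numer g f
    have hGE := hG E y hu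
    have hGP : Δ * G ∉ P' := by
      intro h
      have h1 := (hy _).2 h
      rw [map_mul, hDE, hGE] at h1
      exact mul_ne_zero hne (mul_ne_zero (pow_ne_zero _ hne) hf) h1
    obtain ⟨u, hu1, hu2⟩ := hpts _ hGP
    rw [map_mul] at hu1
    have hdu : dch g u ≠ 0 := by
      rw [← hDL u, hev]
      exact left_ne_zero_of_mul hu1
    have hdu' : IsUnit (dch (g.map (algebraMap L L)) u) := by
      rw [hgL]
      exact isUnit_iff_ne_zero.2 hdu
    refine ⟨chg g u, ?_, ?_⟩
    · have h2 := hG L u hdu'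
      rw [hgL, hev] at h2
      intro h3
      rw [h3, mul_zero] at h2
      exact right_ne_zero_of_mul hu1 h2
    · intro h hh
      obtain ⟨k', H, hH⟩ := numer g h
      have hHE := hH E y hu
      rw [hh, mul_zero] at hHE
      have h4 := hu2 H ((hy H).1 hHE)
      have h5 := hH L u hdu'
      rw [hgL, hev, h4] at h5
      exact (mul_eq_zero.1 h5.symm).resolve_left (pow_ne_zero _ hdu)
  · intro f hf
    obtain ⟨k, G, hG⟩ := numer g f
    have hGE := hG E y hu
    rw [hf, mul_zero] at hGE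
    have h4 := h0 G ((hy G).1 hGE)
    have h5 := hG L 0 (by rw [hgL]; exact isUnit_iff_ne_zero.2 hg0)
    rw [hgL, hcc, h4] at h5
    exact (mul_eq_zero.1 h5.symm).resolve_left (pow_ne_zero _ hg0)

end Pool.Agent.Helper50.CQ
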